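import Pool.Agent.H7.BG.In

set_option autoImplicit false

/-! The generalised Jacobi sums and the trivial estimate, coefficients with common divisors. -/

namespace Pool.Agent.H7.BG

open Finset ZMod
open Pool.Agent.Y883.GJ (T3 SS3)
open Pool.Agent.Y702.GJ

lemma cntJ (c1 c2 c3 : ℤ) (k q2 q3 K : ℕ) [NeZero q2] [NeZero q3] [NeZero K]
    (hq2 : q2 = k * c1.natAbs * c3.natAbs) (hq3 : q3 = k * c1.natAbs * c2.natAbs)
    (hK : K = k * c1.natAbs * c2.natAbs * c3.natAbs) (h2 : c2 ≠ 0)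
    (y : ZMod K) :
    #{x : ZMod q2 × ZMod q3 | ph c2 K q2 x.1 + ph c3 K q3 x.2 = y} ≤
      k * c1.natAbs * Nat.gcd c2.natAbs c3.natAbs := by
  have a2 := Int.natAbs_pos.2 h2
  obtain ⟨g, hg⟩ : ∃ g, g = Nat.gcd c2.natAbs c3.natAbs := ⟨_, rfl⟩
  have g0 : 0 < g := by rw [hg]; exact Nat.gcd_pos_of_pos_left _ a2
  have hgd : g ∣ c2.natAbs := by rw [hg]; exact Nat.gcd_dvd_left _ _
  rw [← hg]
  rw [← card_range (k * c1.natAbs * g)]
  apply card_le_card_of_injOn (fun x => x.2.val / (c2.natAbs / g))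
  · intro x hx
    simp only [coe_range, Set.mem_Iio]
    apply Nat.div_lt_of_lt_mul
    have h1 := ZMod.val_lt x.2
    calc x.2.val < q3 := h1
      _ = (c2.natAbs / g * g) * (k * c1.natAbs) := by rw [Nat.div_mul_cancel hgd, hq3]; ring
      _ = c2.natAbs / g * (k * c1.natAbs * g) := by ring
  · rintro ⟨x2, x3⟩ hx ⟨x2', x3'⟩ hx' hd
    have e1 := (mem_filter.1 (mem_coe.1 hx)).2
    have e2 := (mem_filter.1 (mem_coe.1 hx')).2
    simp only at e1 e2 hd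
    have e3 : (K : ℤ) ∣ (c2 * x2'.val + c3 * x3'.val) - (c2 * x2.val + c3 * x3.val) := by
      rw [← ZMod.intCast_eq_intCast_iff_dvd_sub]
      unfold ph at e1 e2
      push_cast at e1 e2 ⊢
      rw [e1, e2]
    have e4 : ((c2.natAbs / g : ℕ) : ℤ) ∣ (x3'.val : ℤ) - x3.val := by
      have h4 : c2 ∣ (K : ℤ) := by
        rw [← Int.natAbs_dvd_natAbs, Int.natAbs_natCast, hK]
        exact ⟨k * c1.natAbs * c3.natAbs, by ring⟩
      have h5 := h4.trans e3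
      have h6 : c2 ∣ c3 * ((x3'.val : ℤ) - x3.val) := by
        have h7 : c3 * ((x3'.val : ℤ) - x3.val) =
          ((c2 * x2'.val + c3 * x3'.val) - (c2 * x2.val + c3 * x3.val)) -
            c2 * ((x2'.val : ℤ) - x2.val) := by ring
        rw [h7]
        exact dvd_sub h5 (dvd_mul_right _ _)
      rw [hg]
      apply dvd_canc a2 (rfl : c3.natAbs = c3.natAbs)
      rw [Int.natCast_natAbs, abs_dvd]
      exact h6
    have e5 : x3.val = x3'.val := by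
      have h7 : x3.val % (c2.natAbs / g) = x3'.val % (c2.natAbs / g) := by
        have h7' : x3.val ≡ x3'.val [MOD (c2.natAbs / g)] := by
          rw [Nat.modEq_iff_dvd]
          exact e4
        exact h7'
      have h8 := Nat.div_add_mod x3.val (c2.natAbs / g)
      have h9 := Nat.div_add_mod x3'.val (c2.natAbs / g)
      rw [hd, h7] at h8
      rw [← h8, h9]
    have e6 : x3 = x3' := ZMod.val_injective _ e5
    have e7 : x2 = x2' := by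
      have h8 : (K : ℤ) ∣ c2 * ((x2'.val : ℤ) - x2.val) := by
        have h7 : c2 * ((x2'.val : ℤ) - x2.val) =
          (c2 * x2'.val + c3 * x3'.val) - (c2 * x2.val + c3 * x3.val) := by rw [e5]; ring
        rw [h7]
        exact e3
      have h9 : (q2 : ℤ) ∣ (x2'.val : ℤ) - x2.val := by
        have h10 : c2 * q2 ∣ c2 * ((x2'.val : ℤ) - x2.val) := by
          refine Dvd.dvd.trans ?_ h8
          rw [← Int.natAbs_dvd_natAbs, Int.natAbs_mul, Int.natAbs_natCast, Int.natAbs_natCast, hK, hq2]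
          exact ⟨1, by ring⟩
        exact Int.dvd_of_mul_dvd_mul_left h2 h10
      have h10 : ((x2.val : ℤ) : ZMod q2) = ((x2'.val : ℤ) : ZMod q2) :=
        (ZMod.intCast_eq_intCast_iff_dvd_sub _ _ _).2 h9
      push_cast at h10
      rwa [ZMod.natCast_zmod_val, ZMod.natCast_zmod_val] at h10
    rw [e6, e7]

lemma J_l2G (c1 c2 c3 : ℤ) (k K q1 q2 q3 : ℕ) [NeZero q1] [NeZero q2] [NeZero q3] [NeZero K]
    (hc1 : c1 ≠ 0) (hc2 : c2 ≠ 0)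
    (h1 : K = c1.natAbs * q1)
    (hq2 : q2 = k * c1.natAbs * c3.natAbs) (hq3 : q3 = k * c1.natAbs * c2.natAbs)
    (hK : K = k * c1.natAbs * c2.natAbs * c3.natAbs)
    (χ₁ : DirichletCharacter ℂ q1) (χ₂ : DirichletCharacter ℂ q2) (χ₃ : DirichletCharacter ℂ q3) :
    (∑ b, ‖fib (Φ c1 c2 c3 K q1 q2 q3) (F3 χ₁ χ₂ χ₃) b‖ ^ 2) * χ₁.conductor ≤
      (q1 : ℝ) ^ 2 * ((k * c1.natAbs * Nat.gcd c2.natAbs c3.natAbs : ℕ) * ((q2 : ℝ) * q3)) := by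
  set R := fib (fun x : ZMod q2 × ZMod q3 => ph c2 K q2 x.1 + ph c3 K q3 x.2)
          (fun x => χ₂ x.1 * χ₃ x.2) with hR
  have hb : ∀ x : ZMod q2 × ZMod q3, ‖χ₂ x.1 * χ₃ x.2‖ ≤ 1 := by
    intro x
    rw [norm_mul]
    exact mul_le_one₀ (χ₂.norm_le_one _) (norm_nonneg _) (χ₃.norm_le_one _)
  have a1 : ∑ y, ‖R y‖ ^ 2 ≤ (k * c1.natAbs * Nat.gcd c2.natAbs c3.natAbs : ℕ) * ((q2 : ℝ) * q3) := by
    refine (l2 _ _ ((k * c1.natAbs * Nat.gcd c2.natAbs c3.natAbs : ℕ) : ℝ) ?_).trans ?_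
    · intro y
      calc ∑ x : ZMod q2 × ZMod q3, (if ph c2 K q2 x.1 + ph c3 K q3 x.2 = y then ‖χ₂ x.1 * χ₃ x.2‖ else 0)
          ≤ ∑ x : ZMod q2 × ZMod q3, (if ph c2 K q2 x.1 + ph c3 K q3 x.2 = y then (1 : ℝ) else 0) := by
            refine sum_le_sum fun x _ => ?_
            split_ifs
            · exact hb x
            · exact le_rfl
        _ = (#{x : ZMod q2 × ZMod q3 | ph c2 K q2 x.1 + ph c3 K q3 x.2 = y} : ℝ) := by rw [sum_boole]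
        _ ≤ (k * c1.natAbs * Nat.gcd c2.natAbs c3.natAbs : ℕ) := by
          exact_mod_cast cntJ c1 c2 c3 k q2 q3 K hq2 hq3 hK hc2 y
    · apply mul_le_mul_of_nonneg_left _ (by positivity)
      calc ∑ x : ZMod q2 × ZMod q3, ‖χ₂ x.1 * χ₃ x.2‖ ≤ ∑ x : ZMod q2 × ZMod q3, (1 : ℝ) :=
            sum_le_sum fun x _ => hb x
        _ = (q2 : ℝ) * q3 := by
          rw [sum_const, card_univ, Fintype.card_prod, ZMod.card, ZMod.card]
          simp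
  have a2 : (K : ℝ) * ((∑ b, ‖fib (Φ c1 c2 c3 K q1 q2 q3) (F3 χ₁ χ₂ χ₃) b‖ ^ 2) * χ₁.conductor) ≤
      (q1 : ℝ) ^ 2 * (K * ∑ y, ‖R y‖ ^ 2) := by
    rw [← pars, ← mul_assoc, ← pars, sum_mul, mul_sum]
    refine sum_le_sum fun z _ => ?_
    rw [J_hat c1 c2 c3 K q1 q2 q3 hc1 h1, norm_mul, mul_pow, ← hR]
    calc ‖Gs χ₁ ((c1.sign * (z.val : ℤ) : ℤ) : ZMod q1)‖ ^ 2 *
          ‖∑ b, R b * ZMod.stdAddChar (z * b)‖ ^ 2 * χ₁.conductor =
          (‖Gs χ₁ ((c1.sign * (z.val : ℤ) : ℤ) : ZMod q1)‖ ^ 2 * χ₁.conductor) *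
          ‖∑ b, R b * ZMod.stdAddChar (z * b)‖ ^ 2 := by ring
      _ ≤ _ := mul_le_mul_of_nonneg_right (Gs_bound _ _) (by positivity)
  have hK0 : (0 : ℝ) < K := by exact_mod_cast NeZero.pos K
  have a3 : (K : ℝ) * ((∑ b, ‖fib (Φ c1 c2 c3 K q1 q2 q3) (F3 χ₁ χ₂ χ₃) b‖ ^ 2) * χ₁.conductor) ≤
      K * ((q1 : ℝ) ^ 2 * ((k * c1.natAbs * Nat.gcd c2.natAbs c3.natAbs : ℕ) * ((q2 : ℝ) * q3))) := by
    refine a2.trans ?_
    have a4 := mul_le_mul_of_nonneg_left a1 (by positivity : (0 : ℝ) ≤ (q1 : ℝ) ^ 2 * K)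
    linarith
  exact le_of_mul_le_mul_left a3 hK0

lemma mainG (c1 c2 c3 : ℤ) (k K q1 q2 q3 : ℕ) [NeZero q1] [NeZero q2] [NeZero q3] [NeZero K]
    (hc1 : c1 ≠ 0) (hc2 : c2 ≠ 0)
    (hq1 : q1 = k * c2.natAbs * c3.natAbs)
    (hq2 : q2 = k * c1.natAbs * c3.natAbs) (hq3 : q3 = k * c1.natAbs * c2.natAbs)
    (hK : K = k * c1.natAbs * c2.natAbs * c3.natAbs)
    (χ₁ : DirichletCharacter ℂ q1) (χ₂ : DirichletCharacter ℂ q2) (χ₃ : DirichletCharacter ℂ q3)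
    (d : ZMod K) :
    ‖fib (Φ c1 c2 c3 K q1 q2 q3) (F3 χ₁ χ₂ χ₃) d‖ ≤
      gg c1 c2 c3 * (k * K * (1 + Real.log K) * Real.sqrt ((K : ℝ) / K.totient) *
        Real.sqrt ((Nat.gcd d.val K : ℝ) / χ₁.conductor)) := by
  have h1 : K = c1.natAbs * q1 := by rw [hK, hq1]; ring
  have h2 : K = c2.natAbs * q2 := by rw [hK, hq2]; ring
  have h3 : K = c3.natAbs * q3 := by rw [hK, hq3]; ring
  have hK0 : 0 < K := NeZero.pos K
  have hK0' : (0 : ℝ) < K := by exact_mod_cast hK0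
  have hK1 : (1 : ℝ) ≤ K := by exact_mod_cast hK0
  have hφ : (0 : ℝ) < K.totient := by exact_mod_cast Nat.totient_pos.2 hK0
  have hcond : (0 : ℝ) < χ₁.conductor := by
    exact_mod_cast Nat.pos_of_ne_zero χ₁.conductor_ne_zero
  obtain ⟨γ, hγ⟩ : ∃ γ : ℕ, γ = Nat.gcd c2.natAbs c3.natAbs := ⟨_, rfl⟩
  have a1 := Int.natAbs_pos.2 hc1
  have a2 := Int.natAbs_pos.2 hc2
  have hγ0 : 0 < γ := by rw [hγ]; exact Nat.gcd_pos_of_pos_left _ a2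
  have hγG : (γ : ℝ) ≤ gg c1 c2 c3 := by
    have : γ ≤ gg c1 c2 c3 := by
      unfold gg
      rw [← hγ]
      exact Nat.le_mul_of_pos_left _ (Nat.mul_pos (Nat.gcd_pos_of_pos_left _ a1) (Nat.gcd_pos_of_pos_left _ a1))
    exact_mod_cast this
  have hγ1 : (1 : ℝ) ≤ γ := by exact_mod_cast hγ0
  set J := fib (Φ c1 c2 c3 K q1 q2 q3) (F3 χ₁ χ₂ χ₃) with hJ
  have b1 := ut1 (fun b => ‖J b‖ ^ 2) (fun b => by positivity) d (by
    intro u
    simp only [hJ]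
    rw [J_unit c1 c2 c3 K q1 q2 q3 h1 h2 h3])
  have b2 := ut2 (fun b => ‖J b‖ ^ 2) (fun b => by positivity) d
  have b3 := J_l2G c1 c2 c3 k K q1 q2 q3 hc1 hc2 h1 hq2 hq3 hK χ₁ χ₂ χ₃
  rw [← hJ, ← hγ] at b3
  have b4 : (q1 : ℝ) ^ 2 * ((k * c1.natAbs * γ : ℕ) * ((q2 : ℝ) * q3)) = γ * ((k : ℝ) ^ 2 * (K : ℝ) ^ 3) := by
    rw [hK, hq1, hq2, hq3]
    push_cast
    ring
  rw [b4] at b3
  set g : ℝ := (Nat.gcd d.val K : ℝ) with hg
  have hg0 : 0 ≤ g := by positivity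
  have b5 : ‖J d‖ ^ 2 ≤ (γ : ℝ) ^ 2 * ((k : ℝ) ^ 2 * (K : ℝ) ^ 2 * ((K : ℝ) / K.totient) * (g / χ₁.conductor)) := by
    have b6 : (K.totient : ℝ) * ‖J d‖ ^ 2 * χ₁.conductor ≤ (γ : ℝ) ^ 2 * (g * ((k : ℝ) ^ 2 * (K : ℝ) ^ 3)) := by
      calc (K.totient : ℝ) * ‖J d‖ ^ 2 * χ₁.conductor ≤ (g * ∑ b, ‖J b‖ ^ 2) * χ₁.conductor :=
            mul_le_mul_of_nonneg_right (b1.trans b2) hcond.le
        _ = g * ((∑ b, ‖J b‖ ^ 2) * χ₁.conductor) := by ring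
        _ ≤ g * (γ * ((k : ℝ) ^ 2 * (K : ℝ) ^ 3)) := mul_le_mul_of_nonneg_left b3 hg0
        _ = γ * (g * ((k : ℝ) ^ 2 * (K : ℝ) ^ 3)) := by ring
        _ ≤ (γ : ℝ) ^ 2 * (g * ((k : ℝ) ^ 2 * (K : ℝ) ^ 3)) := by
            apply mul_le_mul_of_nonneg_right _ (by positivity)
            nlinarith
    have b7 : (γ : ℝ) ^ 2 * ((k : ℝ) ^ 2 * (K : ℝ) ^ 2 * ((K : ℝ) / K.totient) * (g / χ₁.conductor)) =
        (γ : ℝ) ^ 2 * (g * ((k : ℝ) ^ 2 * (K : ℝ) ^ 3)) / (K.totient * χ₁.conductor) := by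
      field_simp
    rw [b7, le_div_iff₀ (by positivity)]
    linarith
  have b8 : ‖J d‖ ≤ γ * (k * K * Real.sqrt ((K : ℝ) / K.totient) * Real.sqrt (g / χ₁.conductor)) := by
    apply le_of_sq_le_sq _ (by positivity)
    rw [mul_pow, mul_pow, mul_pow, Real.sq_sqrt (by positivity), Real.sq_sqrt (by positivity), mul_pow]
    exact b5
  have b9 : 0 ≤ Real.log K := Real.log_nonneg hK1
  have b10 : 0 ≤ k * K * Real.sqrt ((K : ℝ) / K.totient) * Real.sqrt (g / χ₁.conductor) := by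
    positivity
  have b11 : k * K * Real.sqrt ((K : ℝ) / K.totient) * Real.sqrt (g / χ₁.conductor) ≤
      k * K * (1 + Real.log K) * Real.sqrt ((K : ℝ) / K.totient) * Real.sqrt (g / χ₁.conductor) := by
    nlinarith [mul_nonneg b10 b9]
  calc ‖J d‖ ≤ γ * (k * K * Real.sqrt ((K : ℝ) / K.totient) * Real.sqrt (g / χ₁.conductor)) := b8
    _ ≤ gg c1 c2 c3 * (k * K * (1 + Real.log K) * Real.sqrt ((K : ℝ) / K.totient) * Real.sqrt (g / χ₁.conductor)) :=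
        mul_le_mul hγG b11 b10 (Nat.cast_nonneg _)

theorem tJacG : TJacG := by
  intro c1 c2 c3 k _ _ _ K hK d χ₁ χ₂ χ₃
  subst hK
  have n1 : k * c2.natAbs * c3.natAbs ≠ 0 := NeZero.ne _
  have n2 : k * c1.natAbs * c3.natAbs ≠ 0 := NeZero.ne _
  have n3 : k * c1.natAbs * c2.natAbs ≠ 0 := NeZero.ne _
  have hk : k ≠ 0 := by rintro rfl; simp at n1
  have hc1 : c1 ≠ 0 := by rintro rfl; simp at n2
  have hc2 : c2 ≠ 0 := by rintro rfl; simp at n3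
  have hc3 : c3 ≠ 0 := by rintro rfl; simp at n1
  have : NeZero (k * c1.natAbs * c2.natAbs * c3.natAbs) :=
    ⟨by simp [hk, hc1, hc2, hc3]⟩
  have h := mainG c1 c2 c3 k _ _ _ _ hc1 hc2 rfl rfl rfl rfl χ₁ χ₂ χ₃ d
  have e : Pool.Agent.Y883.GJ.T3 c1 c2 c3 k d (fun x => χ₁ x) (fun x => χ₂ x) (fun x => χ₃ x) =
      fib (Φ c1 c2 c3 (k * c1.natAbs * c2.natAbs * c3.natAbs) _ _ _) (F3 χ₁ χ₂ χ₃) d := by
    unfold Pool.Agent.Y883.GJ.T3 fib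
    rw [Fintype.sum_prod_type]
    refine sum_congr rfl fun x1 _ => ?_
    rw [Fintype.sum_prod_type]
    refine sum_congr rfl fun x2 _ => sum_congr rfl fun x3 _ => ?_
    have e1 : ((c1 * (x1.val : ℤ) + c2 * (x2.val : ℤ) + c3 * (x3.val : ℤ) : ℤ) :
        ZMod (k * c1.natAbs * c2.natAbs * c3.natAbs)) =
        Φ c1 c2 c3 (k * c1.natAbs * c2.natAbs * c3.natAbs) _ _ _ (x1, (x2, x3)) := by
      unfold Φ ph
      push_cast
      ring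
    rw [e1]
    have e2 : χ₁ x1 * χ₂ x2 * χ₃ x3 = χ₁ x1 * (χ₂ x2 * χ₃ x3) := mul_assoc _ _ _
    unfold F3
    split_ifs
    · exact e2
    · rfl
  rw [e]
  exact h

/-- the whole bound -/
lemma hold_coreG (c1 c2 c3 d : ℤ) (h1 : c1 ≠ 0) (h2 : c2 ≠ 0) (h3 : c3 ≠ 0) (P : ℕ) (A B : Finset ℕ)
    (G1 G2 G3 : ℕ → ℂ) :
    ‖∑ x ∈ Icc 1 P, ∑ y ∈ A, ∑ z ∈ B, if c1 * x + c2 * y + c3 * z = d then G1 x * G2 y * G3 z else 0‖ ^ 2 ≤
      (gg c1 c2 c3 * ((P : ℝ) / (c2.natAbs * c3.natAbs) + 1)) * ((∑ x ∈ Icc 1 P, ‖G1 x‖ ^ 2) *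
        (∑ y ∈ A, ‖G2 y‖ ^ 2) * ∑ z ∈ B, ‖G3 z‖ ^ 2) := by
  classical
  have a1 := Int.natAbs_pos.2 h1
  have a2 := Int.natAbs_pos.2 h2
  have a3 := Int.natAbs_pos.2 h3
  have G0 := gg_pos (c3 := c3) h1 h2
  obtain ⟨m, hm⟩ : ∃ m, m = Nat.lcm (c2.natAbs / Nat.gcd c2.natAbs c1.natAbs)
    (c3.natAbs / Nat.gcd c3.natAbs c1.natAbs) := ⟨_, rfl⟩
  have hlow := lcm_low a1 a2 a3
  rw [← hm] at hlow
  have hm0 : 0 < m := by
    by_contra hc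
    have : m = 0 := by omega
    rw [this, zero_mul] at hlow
    have := Nat.mul_pos a2 a3
    omega
  have e1 : (∑ x ∈ Icc 1 P, ∑ y ∈ A, ∑ z ∈ B,
      if c1 * x + c2 * y + c3 * z = d then G1 x * G2 y * G3 z else 0) =
      ∑ x ∈ Icc 1 P, G1 x * ∑ y ∈ A, ∑ z ∈ B,
        if c2 * y + c3 * z = d - c1 * x then G2 y * G3 z else 0 := by
    refine Finset.sum_congr rfl fun x _ => ?_
    rw [Finset.mul_sum]
    refine Finset.sum_congr rfl fun y _ => ?_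
    rw [Finset.mul_sum]
    refine Finset.sum_congr rfl fun z _ => ?_
    by_cases h : c1 * (x : ℤ) + c2 * y + c3 * z = d
    · have h' : c2 * (y : ℤ) + c3 * z = d - c1 * x := by linarith
      rw [if_pos h, if_pos h', mul_assoc]
    · have h' : ¬ (c2 * (y : ℤ) + c3 * z = d - c1 * x) := fun h' => h (by linarith)
      rw [if_neg h, if_neg h', mul_zero]
  rw [e1]
  set S : ℕ → ℂ := fun x => ∑ y ∈ A, ∑ z ∈ B,
        if c2 * y + c3 * z = d - c1 * x then G2 y * G3 z else 0 with hS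
  have i1 : ‖∑ x ∈ Icc 1 P, G1 x * S x‖ ^ 2 ≤
      (∑ x ∈ Icc 1 P, ‖G1 x‖ ^ 2) * ∑ x ∈ Icc 1 P, ‖S x‖ ^ 2 := by
    have j1 : ‖∑ x ∈ Icc 1 P, G1 x * S x‖ ≤ ∑ x ∈ Icc 1 P, ‖G1 x‖ * ‖S x‖ := by
      refine (norm_sum_le _ _).trans (Finset.sum_le_sum fun p _ => ?_)
      rw [norm_mul]
    exact (pow_le_pow_left₀ (norm_nonneg _) j1 2).trans (Finset.sum_mul_sq_le_sq_mul_sq _ _ _)
  have hM : ((P / m + 1 : ℕ) : ℝ) ≤ gg c1 c2 c3 * ((P : ℝ) / (c2.natAbs * c3.natAbs) + 1) := by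
    have k1 : ((P / m : ℕ) : ℝ) ≤ (P : ℝ) / m := Nat.cast_div_le
    have k2 : (P : ℝ) / m ≤ gg c1 c2 c3 * ((P : ℝ) / (c2.natAbs * c3.natAbs)) := by
      have hm0' : (0 : ℝ) < m := by exact_mod_cast hm0
      have a2' : (0 : ℝ) < c2.natAbs := by exact_mod_cast a2
      have a3' : (0 : ℝ) < c3.natAbs := by exact_mod_cast a3
      have k3 : (c2.natAbs : ℝ) * c3.natAbs ≤ m * gg c1 c2 c3 := by exact_mod_cast hlow
      rw [← mul_div_assoc, div_le_div_iff₀ hm0' (by positivity)]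
      calc (P : ℝ) * ((c2.natAbs : ℝ) * c3.natAbs) ≤ P * (m * gg c1 c2 c3) :=
            mul_le_mul_of_nonneg_left k3 (Nat.cast_nonneg _)
        _ = gg c1 c2 c3 * P * m := by ring
    have k4 : (1 : ℝ) ≤ gg c1 c2 c3 := by exact_mod_cast G0
    push_cast
    linarith
  have i2 : (∑ x ∈ Icc 1 P, ‖S x‖ ^ 2) ≤ (gg c1 c2 c3 * ((P : ℝ) / (c2.natAbs * c3.natAbs) + 1)) *
      ((∑ y ∈ A, ‖G2 y‖ ^ 2) * ∑ z ∈ B, ‖G3 z‖ ^ 2) := by
    have j1 : (∑ x ∈ Icc 1 P, ‖S x‖ ^ 2) ≤ ∑ x ∈ Icc 1 P, ∑ y ∈ A, ∑ z ∈ B,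
        if c3 ∣ (d - c1 * x - c2 * y) ∧ c2 ∣ (d - c1 * x - c3 * z) then ‖G2 y‖ ^ 2 * ‖G3 z‖ ^ 2 else 0 := by
      refine Finset.sum_le_sum fun x _ => ?_
      refine (Pool.Agent.Y756.GJ.inner_bound c2 c3 (d - c1 * x) h2 h3 A B G2 G3).trans (le_of_eq ?_)
      rw [Finset.sum_filter, Finset.sum_filter, Finset.sum_mul_sum]
      refine Finset.sum_congr rfl fun y _ => Finset.sum_congr rfl fun z _ => ?_
      by_cases ha : c3 ∣ (d - c1 * x - c2 * y)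
      · by_cases hb : c2 ∣ (d - c1 * x - c3 * z)
        · simp [ha, hb]
        · simp [hb]
      · simp [ha]
    refine j1.trans ?_
    rw [Finset.sum_comm]
    have j2 : ∀ y ∈ A, (∑ x ∈ Icc 1 P, ∑ z ∈ B,
        if c3 ∣ (d - c1 * x - c2 * y) ∧ c2 ∣ (d - c1 * x - c3 * z) then ‖G2 y‖ ^ 2 * ‖G3 z‖ ^ 2 else 0) ≤
        ∑ z ∈ B, (gg c1 c2 c3 * ((P : ℝ) / (c2.natAbs * c3.natAbs) + 1)) * (‖G2 y‖ ^ 2 * ‖G3 z‖ ^ 2) := by
      intro y _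
      rw [Finset.sum_comm]
      refine Finset.sum_le_sum fun z _ => ?_
      rw [← Finset.sum_filter, Finset.sum_const, nsmul_eq_mul]
      refine mul_le_mul_of_nonneg_right ?_ (by positivity)
      have := Pool.Agent.Y756.GJ.card_class P m ((Icc 1 P).filter (fun x : ℕ =>
        c3 ∣ (d - c1 * x - c2 * y) ∧ c2 ∣ (d - c1 * x - c3 * z)))
        (fun x hx => (Finset.mem_Icc.1 (Finset.mem_filter.1 hx).1).2) ?_
      · exact le_trans (by exact_mod_cast this) hM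
      · intro x hx x' hx'
        have hx := (Finset.mem_filter.1 hx).2
        have hx' := (Finset.mem_filter.1 hx').2
        have k3 : ((c3.natAbs / Nat.gcd c3.natAbs c1.natAbs : ℕ) : ℤ) ∣ ((x : ℤ) - x') := by
          apply dvd_canc a3 (rfl : c1.natAbs = c1.natAbs)
          rw [Int.natCast_natAbs, abs_dvd]
          have := dvd_sub hx'.1 hx.1
          have e : d - c1 * (x' : ℤ) - c2 * y - (d - c1 * x - c2 * y) = c1 * ((x : ℤ) - x') := by ring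
          rwa [e] at this
        have k2 : ((c2.natAbs / Nat.gcd c2.natAbs c1.natAbs : ℕ) : ℤ) ∣ ((x : ℤ) - x') := by
          apply dvd_canc a2 (rfl : c1.natAbs = c1.natAbs)
          rw [Int.natCast_natAbs, abs_dvd]
          have := dvd_sub hx'.2 hx.2
          have e : d - c1 * (x' : ℤ) - c3 * z - (d - c1 * x - c3 * z) = c1 * ((x : ℤ) - x') := by ring
          rwa [e] at this
        rw [hm]
        exact Int.natCast_dvd.2 (Nat.lcm_dvd (Int.natCast_dvd.1 k2) (Int.natCast_dvd.1 k3))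
    refine (Finset.sum_le_sum j2).trans (le_of_eq ?_)
    rw [Finset.sum_mul_sum, Finset.mul_sum]
    refine Finset.sum_congr rfl fun y _ => ?_
    rw [Finset.mul_sum]
  calc ‖∑ x ∈ Icc 1 P, G1 x * S x‖ ^ 2 ≤ (∑ x ∈ Icc 1 P, ‖G1 x‖ ^ 2) * ∑ x ∈ Icc 1 P, ‖S x‖ ^ 2 := i1
    _ ≤ (∑ x ∈ Icc 1 P, ‖G1 x‖ ^ 2) * ((gg c1 c2 c3 * ((P : ℝ) / (c2.natAbs * c3.natAbs) + 1)) *
      ((∑ y ∈ A, ‖G2 y‖ ^ 2) * ∑ z ∈ B, ‖G3 z‖ ^ 2)) :=
        mul_le_mul_of_nonneg_left i2 (Finset.sum_nonneg fun _ _ => by positivity)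
    _ = _ := by ring

/-- HOLD: the trivial estimate in square mean -/
theorem holdG : HoldG := by
  intro c1 c2 c3 d P1 P2 P3 G1 G2 G3 h1 h2 h3
  have h := hold_coreG c1 c2 c3 d h1 h2 h3 P1 (Icc 1 P2) (Icc 1 P3) G1 G2 G3
  refine (le_trans ?_ h).trans (le_of_eq (by ring))
  exact le_of_eq rfl

end Pool.Agent.H7.BG
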