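import Pool.Agent.H7.BK.Stm3
import Pool.Agent.H7.BG.In2

set_option autoImplicit false

/-! Ternary linear equations with large coefficients with small common divisors: the sizes, moduli up to
`P ^ (2 / 3 - ρ)`. -/

namespace Pool.Agent.H7.BG

open Finset
open Pool.Agent.H807R2.Dav (ee)
open Pool.Agent.Y883.GJ
open Pool.Agent.H7.BK (Str3 Mnr3 Sml)

/-- the sizes -/
structure Par3 (ρ : ℝ) (N T : ℕ) (c1 c2 c3 d : ℤ) (P1 P2 P3 : ℕ) : Prop where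
  n1 : c1 ≠ 0
  n2 : c2 ≠ 0
  n3 : c3 ≠ 0
  u1 : c1.natAbs * P1 ≤ N
  u2 : c2.natAbs * P2 ≤ N
  u3 : c3.natAbs * P3 ≤ N
  v1 : N < 2 * (c1.natAbs * P1)
  v2 : N < 2 * (c2.natAbs * P2)
  v3 : N < 2 * (c3.natAbs * P3)
  hd : 3 * |d| ≤ N
  q1 : ((c2.natAbs * c3.natAbs : ℕ) : ℝ) ≤ (P1 : ℝ) ^ (2 / 3 - ρ)
  q2 : ((c1.natAbs * c3.natAbs : ℕ) : ℝ) ≤ (P2 : ℝ) ^ (2 / 3 - ρ)
  q3 : ((c1.natAbs * c2.natAbs : ℕ) : ℝ) ≤ (P3 : ℝ) ^ (2 / 3 - ρ)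
  g12 : ((Nat.gcd c1.natAbs c2.natAbs : ℕ) : ℝ) ≤ Real.log N ^ T
  g13 : ((Nat.gcd c1.natAbs c3.natAbs : ℕ) : ℝ) ≤ Real.log N ^ T
  g23 : ((Nat.gcd c2.natAbs c3.natAbs : ℕ) : ℝ) ≤ Real.log N ^ T
  gd : ((Nat.gcd d.natAbs (c1.natAbs * c2.natAbs * c3.natAbs) : ℕ) : ℝ) ≤ Real.log N ^ T

/-- TPW3: the pointwise estimate of the ternary sum on the major arcs -/
def TPW3Stm : Prop := ∀ (A T : ℕ) (ρ : ℝ), 0 < ρ → ∀ C₁ : ℕ, ∃ A₂ : ℕ, ∀ C₃ : ℕ, ∃ K U N₀ : ℕ,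
  ∀ N : ℕ, N₀ ≤ N → ∀ {c1 c2 c3 d : ℤ} {P1 P2 P3 : ℕ}, Par3 ρ N T c1 c2 c3 d P1 P2 P3 → ∀ G1 G2 G3 : ℕ → ℂ,
  Str3 (ρ / 2) A₂ (C₁ + 1) C₃ P1 G1 → Str3 (ρ / 2) A₂ (C₁ + 1) C₃ P2 G2 →
  Str3 (ρ / 2) A₂ (C₁ + 1) C₃ P3 G3 → Sml K (C₁ + 1) U P1 G1 →
  ∀ (k : ℕ) [NeZero (k * c2.natAbs * c3.natAbs)] [NeZero (k * c1.natAbs * c3.natAbs)]
    [NeZero (k * c1.natAbs * c2.natAbs)], 1 ≤ k → (k : ℝ) ≤ Real.log N ^ C₁ →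
  ∀ d' : ZMod (k * c1.natAbs * c2.natAbs * c3.natAbs),
    ((d'.val : ℕ) : ZMod (1 * c1.natAbs * c2.natAbs * c3.natAbs)) = (d : ZMod (1 * c1.natAbs * c2.natAbs * c3.natAbs)) →
  ∀ η : ℝ, |c1 * η| ≤ Real.log P1 ^ (C₁ + 1) / P1 → |c2 * η| ≤ Real.log P2 ^ (C₁ + 1) / P2 →
    |c3 * η| ≤ Real.log P3 ^ (C₁ + 1) / P3 →
  ‖T3 c1 c2 c3 k d' (cl _ P1 G1 (c1 * η)) (cl _ P2 G2 (c2 * η)) (cl _ P3 G3 (c3 * η))‖ ≤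
    (1 / Real.log N ^ A) *
      (P1 / Real.sqrt (c2.natAbs * c3.natAbs) *
        (Real.sqrt (∑ x, ‖cl (k * c1.natAbs * c3.natAbs) P2 G2 (c2 * η) x‖ ^ 2) *
          Real.sqrt (∑ x, ‖cl (k * c1.natAbs * c2.natAbs) P3 G3 (c3 * η) x‖ ^ 2)) +
       P2 / Real.sqrt (c1.natAbs * c3.natAbs) *
        (Real.sqrt (∑ x, ‖cl (k * c2.natAbs * c3.natAbs) P1 G1 (c1 * η) x‖ ^ 2) *
          Real.sqrt (∑ x, ‖cl (k * c1.natAbs * c2.natAbs) P3 G3 (c3 * η) x‖ ^ 2)) +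
       P3 / Real.sqrt (c1.natAbs * c2.natAbs) *
        (Real.sqrt (∑ x, ‖cl (k * c2.natAbs * c3.natAbs) P1 G1 (c1 * η) x‖ ^ 2) *
          Real.sqrt (∑ x, ‖cl (k * c1.natAbs * c3.natAbs) P2 G2 (c2 * η) x‖ ^ 2)))

/-- TERN3: the error term of the ternary equation, the difference is in the first place, the minor arcs are
treated with the first or with the second function -/
def Tern3Stm : Prop := ∀ (A T : ℕ) (ρ : ℝ), 0 < ρ → ∃ A₁ : ℕ, ∀ C₁ : ℕ, ∃ A₂ : ℕ, ∀ C₃ : ℕ, ∃ K U N₀ : ℕ,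
  ∀ N : ℕ, N₀ ≤ N → ∀ {c1 c2 c3 d : ℤ} {P1 P2 P3 : ℕ}, Par3 ρ N T c1 c2 c3 d P1 P2 P3 → ∀ G1 G2 G3 : ℕ → ℂ,
  (Mnr3 (ρ / 2) A₁ C₁ P1 G1 ∨ Mnr3 (ρ / 2) A₁ C₁ P2 G2) →
  Str3 (ρ / 2) A₂ (C₁ + 1) C₃ P1 G1 → Str3 (ρ / 2) A₂ (C₁ + 1) C₃ P2 G2 →
  Str3 (ρ / 2) A₂ (C₁ + 1) C₃ P3 G3 → Sml K (C₁ + 1) U P1 G1 →
  ‖SS3 c1 c2 c3 d P1 P2 P3 G1 G2 G3‖ ≤
    (N : ℝ) ^ 2 / (c1.natAbs * c2.natAbs * c3.natAbs) / Real.log N ^ A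

lemma Par3.gg_le {ρ : ℝ} {N T : ℕ} {c1 c2 c3 d : ℤ} {P1 P2 P3 : ℕ} (h : Par3 ρ N T c1 c2 c3 d P1 P2 P3) :
    (gg c1 c2 c3 : ℝ) ≤ Real.log N ^ (3 * T) := by
  unfold gg
  push_cast
  have h1 := h.g12
  have h2 := h.g13
  have h3 := h.g23
  have z1 : (0 : ℝ) ≤ (Nat.gcd c1.natAbs c2.natAbs : ℕ) := Nat.cast_nonneg _
  have z2 : (0 : ℝ) ≤ (Nat.gcd c1.natAbs c3.natAbs : ℕ) := Nat.cast_nonneg _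
  have z3 : (0 : ℝ) ≤ (Nat.gcd c2.natAbs c3.natAbs : ℕ) := Nat.cast_nonneg _
  have z : 0 ≤ Real.log N ^ T := z1.trans h1
  calc ((Nat.gcd c1.natAbs c2.natAbs : ℕ) : ℝ) * (Nat.gcd c1.natAbs c3.natAbs : ℕ) *
        (Nat.gcd c2.natAbs c3.natAbs : ℕ) ≤ Real.log N ^ T * Real.log N ^ T * Real.log N ^ T := by gcongr
    _ = Real.log N ^ (3 * T) := by ring

end Pool.Agent.H7.BG
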