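import Pool.Agent.H7.BG.Final
import Pool.Agent.H7.BG.Tpw
import Pool.Agent.H7.BG.Tern
import Pool.Agent.H7.BK.MajL3
import Pool.Agent.H7.BK.Bil3
import Pool.Graph.R_seed8.R460.GS.Asm
import Pool.Graph.R_seed8.Y883.GJ.AsmT

set_option autoImplicit false

/-! Assembly: the ternary equation, modulus up to the power two thirds, small common divisors. -/

namespace Pool.Agent.H7.BG

open Pool.Agent.Y883.GJ
open Pool.Agent.R460.GS
open Pool.Agent.H7.BK (MajL3Stm MajH3Stm majL3 majH3 bilMaj3)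

theorem tpw_all : TPW3Stm :=
  tPW3 Pool.Agent.Y297.GJ.orth Pool.Agent.Y812.GJ.l2 Pool.Agent.Y812.GJ.nonU tNormG tJacG

theorem tern_all : Tern3Stm :=
  tern3 tpw_all tNormG Pool.Agent.Y730.GJ.tLift Pool.Agent.Y730.GJ.tPars
    Pool.Agent.Y297.GJ.orth Pool.Agent.Y812.GJ.nonU

theorem majL3_all : MajL3Stm :=
  majL3 Pool.Agent.Y235.GJ.vau (tiMaj2 Pool.Agent.Y812.GJ.l2)
    (bilMaj3 Pool.Agent.Y812.GJ.l2 (Pool.Agent.Y662.GJ.count Pool.Agent.Y812.GJ.l2))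

theorem majH3_all : MajH3Stm :=
  majH3 (tiMaj2 Pool.Agent.Y812.GJ.l2) Pool.Agent.Y812.GJ.lsh_le

theorem low_all : Low3Stm :=
  low3 tern_all majL3_all majH3_all
    (mG Pool.Agent.Y812.GJ.l2 (bilMaj2 Pool.Agent.Y812.GJ.l2 (Pool.Agent.Y662.GJ.count Pool.Agent.Y812.GJ.l2))
      (tiMaj2 Pool.Agent.Y812.GJ.l2))
    (nG Pool.Agent.Y812.GJ.l2 Pool.Agent.Y909.GJ.bilMin Pool.Agent.Y412.GJ.tiMin)
    (Pool.Agent.R462.GS.mH (tiMaj2 Pool.Agent.Y812.GJ.l2) Pool.Agent.Y812.GJ.lsh_le Pool.Agent.R453.GS.wtb_all)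
    (Pool.Agent.R462.GS.nH Pool.Agent.Y412.GJ.tiMin Pool.Agent.Y812.GJ.lsh_le Pool.Agent.R453.GS.wtb_all)
    Pool.Agent.R453.GS.wtb_all Pool.Agent.R453.GS.wtd_all Pool.Agent.R453.GS.apg_all
    Pool.Agent.Y883.GJ.model_all Pool.Agent.Y185.GJ.smallC holdG

end Pool.Agent.H7.BG
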