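import Pool.Graph.R_seed8.Y883.GJ.Stm3
import Pool.Graph.R_seed8.Y883.GJ.Stm4
import Pool.Graph.R_seed8.Y445.GJ.TNormCore
import Pool.Graph.R_seed8.Y702.GJ.TJac
import Pool.Graph.R_seed8.Y756.GJ.Hold

set_option autoImplicit false

/-! The ternary congruence and the ternary equation with coefficients which may have common divisors. -/

namespace Pool.Agent.H7.BG

open Finset
open Pool.Agent.Y883.GJ

/-- the product of the greatest common divisors -/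
def gg (c1 c2 c3 : ℤ) : ℕ :=
  Nat.gcd c1.natAbs c2.natAbs * Nat.gcd c1.natAbs c3.natAbs * Nat.gcd c2.natAbs c3.natAbs

/-- TNORM -/
def TNormG : Prop := ∀ (c1 c2 c3 : ℤ) (k : ℕ) [NeZero (k * c2.natAbs * c3.natAbs)]
  [NeZero (k * c1.natAbs * c3.natAbs)] [NeZero (k * c1.natAbs * c2.natAbs)],
  ∀ (d : ZMod (k * c1.natAbs * c2.natAbs * c3.natAbs))
    (A : ZMod (k * c2.natAbs * c3.natAbs) → ℂ) (B : ZMod (k * c1.natAbs * c3.natAbs) → ℂ)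
    (C : ZMod (k * c1.natAbs * c2.natAbs) → ℂ),
  ‖T3 c1 c2 c3 k d A B C‖ ^ 2 ≤ (k * gg c1 c2 c3 : ℕ) * (∑ x, ‖A x‖ ^ 2) * (∑ x, ‖B x‖ ^ 2) * (∑ x, ‖C x‖ ^ 2)

/-- TJAC -/
def TJacG : Prop := ∀ (c1 c2 c3 : ℤ) (k : ℕ) [NeZero (k * c2.natAbs * c3.natAbs)]
  [NeZero (k * c1.natAbs * c3.natAbs)] [NeZero (k * c1.natAbs * c2.natAbs)],
  ∀ K : ℕ, K = k * c1.natAbs * c2.natAbs * c3.natAbs →
  ∀ (d : ZMod (k * c1.natAbs * c2.natAbs * c3.natAbs))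
    (χ₁ : DirichletCharacter ℂ (k * c2.natAbs * c3.natAbs))
    (χ₂ : DirichletCharacter ℂ (k * c1.natAbs * c3.natAbs))
    (χ₃ : DirichletCharacter ℂ (k * c1.natAbs * c2.natAbs)),
  ‖T3 c1 c2 c3 k d (fun x => χ₁ x) (fun x => χ₂ x) (fun x => χ₃ x)‖ ≤
    gg c1 c2 c3 * (k * K * (1 + Real.log K) * Real.sqrt ((K : ℝ) / K.totient) *
      Real.sqrt ((Nat.gcd d.val K : ℝ) / χ₁.conductor))

/-- HOLD: the trivial estimate in square mean -/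
def HoldG : Prop := ∀ (c1 c2 c3 d : ℤ) (P1 P2 P3 : ℕ) (G1 G2 G3 : ℕ → ℂ), c1 ≠ 0 → c2 ≠ 0 → c3 ≠ 0 →
  ‖SS3 c1 c2 c3 d P1 P2 P3 G1 G2 G3‖ ^ 2 ≤ (gg c1 c2 c3 * ((P1 : ℝ) / (c2.natAbs * c3.natAbs) + 1)) *
    (∑ n ∈ Icc 1 P1, ‖G1 n‖ ^ 2) * (∑ n ∈ Icc 1 P2, ‖G2 n‖ ^ 2) * (∑ n ∈ Icc 1 P3, ‖G3 n‖ ^ 2)

lemma gg_pos {c1 c2 c3 : ℤ} (h1 : c1 ≠ 0) (h2 : c2 ≠ 0) : 0 < gg c1 c2 c3 := by
  unfold gg
  have a1 := Int.natAbs_pos.2 h1
  have a2 := Int.natAbs_pos.2 h2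
  exact Nat.mul_pos (Nat.mul_pos (Nat.gcd_pos_of_pos_left _ a1) (Nat.gcd_pos_of_pos_left _ a1))
    (Nat.gcd_pos_of_pos_left _ a2)

/-- cancellation of a common divisor -/
lemma dvd_canc {a b : ℕ} (ha : 0 < a) {c : ℤ} (hc : c.natAbs = b) {t : ℤ} (h : (a : ℤ) ∣ c * t) :
    ((a / Nat.gcd a b : ℕ) : ℤ) ∣ t := by
  have h1 : a ∣ b * t.natAbs := by
    have := Int.natAbs_dvd_natAbs.2 h
    rwa [Int.natAbs_natCast, Int.natAbs_mul, hc] at this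
  have g0 : 0 < Nat.gcd a b := Nat.gcd_pos_of_pos_left _ ha
  have h2 : a / Nat.gcd a b ∣ t.natAbs := by
    have h3 : Nat.gcd a b * (a / Nat.gcd a b) ∣ Nat.gcd a b * ((b / Nat.gcd a b) * t.natAbs) := by
      rw [Nat.mul_div_cancel' (Nat.gcd_dvd_left a b), ← mul_assoc, Nat.mul_div_cancel' (Nat.gcd_dvd_right a b)]
      exact h1
    have h4 := Nat.dvd_of_mul_dvd_mul_left g0 h3
    exact (Nat.coprime_div_gcd_div_gcd g0).dvd_of_dvd_mul_left h4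
  exact Int.natCast_dvd.2 h2

/-- the modulus of two congruences -/
lemma lcm_low {a1 a2 a3 : ℕ} (h1 : 0 < a1) (h2 : 0 < a2) (h3 : 0 < a3) :
    a2 * a3 ≤ Nat.lcm (a2 / Nat.gcd a2 a1) (a3 / Nat.gcd a3 a1) *
      (Nat.gcd a1 a2 * Nat.gcd a1 a3 * Nat.gcd a2 a3) := by
  obtain ⟨u, hu⟩ : ∃ u, u = a2 / Nat.gcd a2 a1 := ⟨_, rfl⟩
  obtain ⟨v, hv⟩ : ∃ v, v = a3 / Nat.gcd a3 a1 := ⟨_, rfl⟩
  rw [← hu, ← hv]
  have e2 : a2 = Nat.gcd a1 a2 * u := by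
    rw [hu, Nat.gcd_comm a1 a2, Nat.mul_div_cancel' (Nat.gcd_dvd_left _ _)]
  have e3 : a3 = Nat.gcd a1 a3 * v := by
    rw [hv, Nat.gcd_comm a1 a3, Nat.mul_div_cancel' (Nat.gcd_dvd_left _ _)]
  have d2 : u ∣ a2 := ⟨Nat.gcd a1 a2, by rw [mul_comm]; exact e2⟩
  have d3 : v ∣ a3 := ⟨Nat.gcd a1 a3, by rw [mul_comm]; exact e3⟩
  have k1 : Nat.gcd u v ≤ Nat.gcd a2 a3 :=
    Nat.le_of_dvd (Nat.gcd_pos_of_pos_left _ h2) (Nat.gcd_dvd_gcd_of_dvd_left _ d2 |>.trans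
      (Nat.gcd_dvd_gcd_of_dvd_right _ d3))
  have k2 := Nat.gcd_mul_lcm u v
  have k3 : u * v ≤ Nat.lcm u v * Nat.gcd a2 a3 := by
    rw [← k2, mul_comm]
    exact Nat.mul_le_mul_left _ k1
  calc a2 * a3 = (Nat.gcd a1 a2 * Nat.gcd a1 a3) * (u * v) := by
        conv_lhs => rw [e2, e3]
        ring
    _ ≤ (Nat.gcd a1 a2 * Nat.gcd a1 a3) * (Nat.lcm u v * Nat.gcd a2 a3) := Nat.mul_le_mul_left _ k3
    _ = _ := by ring

/-- the number of solutions of two congruences -/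
theorem cntG {c1 c2 c3 : ℤ} {k q : ℕ} [NeZero q] (hq : q = k * c2.natAbs * c3.natAbs) (h1 : c1 ≠ 0)
    (h2 : c2 ≠ 0) (h3 : c3 ≠ 0) (u v : ℤ) (E : Finset (ZMod q))
    (hE : ∀ x ∈ E, c3 ∣ c1 * (x.val : ℤ) - u ∧ c2 ∣ c1 * (x.val : ℤ) - v) : E.card ≤ k * gg c1 c2 c3 := by
  have a1 := Int.natAbs_pos.2 h1
  have a2 := Int.natAbs_pos.2 h2
  have a3 := Int.natAbs_pos.2 h3
  obtain ⟨m, hm⟩ : ∃ m, m = Nat.lcm (c2.natAbs / Nat.gcd c2.natAbs c1.natAbs)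
    (c3.natAbs / Nat.gcd c3.natAbs c1.natAbs) := ⟨_, rfl⟩
  have hlow := lcm_low a1 a2 a3
  rw [← hm] at hlow
  have hm0 : 0 < m := by
    by_contra hc
    have : m = 0 := by omega
    rw [this, zero_mul] at hlow
    have := Nat.mul_pos a2 a3
    omega
  have hqm : q ≤ m * (k * gg c1 c2 c3) := by
    rw [hq, mul_assoc]
    calc k * (c2.natAbs * c3.natAbs) ≤ k * (m * gg c1 c2 c3) := Nat.mul_le_mul_left _ hlow
      _ = _ := by ring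
  have key := Finset.card_le_card_of_injOn (s := E) (t := range (k * gg c1 c2 c3)) (fun x => x.val / m) (by
    intro x _
    have h2 : x.val < m * (k * gg c1 c2 c3) := lt_of_lt_of_le (ZMod.val_lt x) hqm
    exact Finset.mem_coe.2 (mem_range.2 (Nat.div_lt_of_lt_mul h2))) (by
    intro x hx y hy hxy
    have hx' := hE x (Finset.mem_coe.1 hx)
    have hy' := hE y (Finset.mem_coe.1 hy)
    have h3 : ((c3.natAbs / Nat.gcd c3.natAbs c1.natAbs : ℕ) : ℤ) ∣ (x.val : ℤ) - y.val := by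
      apply dvd_canc a3 (rfl : c1.natAbs = c1.natAbs)
      have := dvd_sub hx'.1 hy'.1
      have e : c1 * ((x.val : ℤ) - y.val) = c1 * (x.val : ℤ) - u - (c1 * (y.val : ℤ) - u) := by ring
      rw [e, Int.natCast_natAbs, abs_dvd]
      exact this
    have h4 : ((c2.natAbs / Nat.gcd c2.natAbs c1.natAbs : ℕ) : ℤ) ∣ (x.val : ℤ) - y.val := by
      apply dvd_canc a2 (rfl : c1.natAbs = c1.natAbs)
      have := dvd_sub hx'.2 hy'.2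
      have e : c1 * ((x.val : ℤ) - y.val) = c1 * (x.val : ℤ) - v - (c1 * (y.val : ℤ) - v) := by ring
      rw [e, Int.natCast_natAbs, abs_dvd]
      exact this
    have h6 : (m : ℤ) ∣ (x.val : ℤ) - y.val := by
      rw [hm]
      exact Int.natCast_dvd.2 (Nat.lcm_dvd (Int.natCast_dvd.1 h4) (Int.natCast_dvd.1 h3))
    have h7 : y.val ≡ x.val [MOD m] := Nat.modEq_iff_dvd.2 h6
    have h8 : x.val / m = y.val / m := hxy
    have h9 : x.val = y.val := by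
      rw [← Nat.div_add_mod x.val m, ← Nat.div_add_mod y.val m, h8, h7.symm]
    exact ZMod.val_injective _ h9)
  rwa [card_range] at key

theorem coreG (c1 c2 c3 : ℤ) (k q1 q2 q3 K : ℕ) [NeZero q1] [NeZero q2] [NeZero q3]
    (hq1 : q1 = k * c2.natAbs * c3.natAbs) (hq2 : q2 = k * c1.natAbs * c3.natAbs)
    (hq3 : q3 = k * c1.natAbs * c2.natAbs) (hK : K = k * c1.natAbs * c2.natAbs * c3.natAbs)
    (d : ZMod K) (A : ZMod q1 → ℂ) (B : ZMod q2 → ℂ) (C : ZMod q3 → ℂ)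
    (inst : ∀ (x1 : ZMod q1) (x2 : ZMod q2) (x3 : ZMod q3), Decidable (((c1 * (x1.val : ℤ) +
        c2 * (x2.val : ℤ) + c3 * (x3.val : ℤ) : ℤ) : ZMod K) = d)) :
    ‖∑ x1 : ZMod q1, ∑ x2 : ZMod q2, ∑ x3 : ZMod q3,
      if ((c1 * (x1.val : ℤ) + c2 * (x2.val : ℤ) + c3 * (x3.val : ℤ) : ℤ) : ZMod K) = d
        then A x1 * B x2 * C x3 else 0‖ ^ 2 ≤
      (k * gg c1 c2 c3 : ℕ) * (∑ x, ‖A x‖ ^ 2) * (∑ x, ‖B x‖ ^ 2) * (∑ x, ‖C x‖ ^ 2) := by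
  obtain ⟨D, hD⟩ := ZMod.intCast_surjective d
  have hne1 := NeZero.ne q1
  have hc1 : c1 ≠ 0 := by
    rintro rfl
    apply NeZero.ne q2
    rw [hq2]; simp
  have hc2 : c2 ≠ 0 := by
    rintro rfl
    apply hne1
    rw [hq1]; simp
  have hc3 : c3 ≠ 0 := by
    rintro rfl
    apply hne1
    rw [hq1]; simp
  have hdv : ∀ (x1 : ZMod q1) (x2 : ZMod q2) (x3 : ZMod q3), ((c1 * (x1.val : ℤ) +
      c2 * (x2.val : ℤ) + c3 * (x3.val : ℤ) : ℤ) : ZMod K) = d →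
      (K : ℤ) ∣ D - (c1 * (x1.val : ℤ) + c2 * (x2.val : ℤ) + c3 * (x3.val : ℤ)) := by
    intro x1 x2 x3 h
    rw [← hD] at h
    exact (ZMod.intCast_eq_intCast_iff_dvd_sub _ _ _).1 h
  have hd3 : c3 ∣ (K : ℤ) := by
    rw [hK]
    push_cast
    exact dvd_mul_of_dvd_right ((dvd_abs _ _).2 dvd_rfl) _
  have hd2 : c2 ∣ (K : ℤ) := by
    rw [hK]
    push_cast
    exact dvd_mul_of_dvd_left (dvd_mul_of_dvd_right ((dvd_abs _ _).2 dvd_rfl) _) _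
  have g1 : ∀ (x1 : ZMod q1) (x2 : ZMod q2) (x3 : ZMod q3), ((c1 * (x1.val : ℤ) +
      c2 * (x2.val : ℤ) + c3 * (x3.val : ℤ) : ℤ) : ZMod K) = d →
      c3 ∣ c1 * (x1.val : ℤ) - (D - c2 * (x2.val : ℤ)) := by
    intro x1 x2 x3 h
    have h1 := hd3.trans (hdv x1 x2 x3 h)
    have e : c1 * (x1.val : ℤ) - (D - c2 * (x2.val : ℤ)) =
        -(D - (c1 * (x1.val : ℤ) + c2 * (x2.val : ℤ) + c3 * (x3.val : ℤ))) -
          c3 * (x3.val : ℤ) := by ring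
    rw [e]
    exact dvd_sub ((dvd_neg).2 h1) (dvd_mul_right _ _)
  have g2 : ∀ (x1 : ZMod q1) (x2 : ZMod q2) (x3 : ZMod q3), ((c1 * (x1.val : ℤ) +
      c2 * (x2.val : ℤ) + c3 * (x3.val : ℤ) : ℤ) : ZMod K) = d →
      c2 ∣ c1 * (x1.val : ℤ) - (D - c3 * (x3.val : ℤ)) := by
    intro x1 x2 x3 h
    have h1 := hd2.trans (hdv x1 x2 x3 h)
    have e : c1 * (x1.val : ℤ) - (D - c3 * (x3.val : ℤ)) =
        -(D - (c1 * (x1.val : ℤ) + c2 * (x2.val : ℤ) + c3 * (x3.val : ℤ))) -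
          c2 * (x2.val : ℤ) := by ring
    rw [e]
    exact dvd_sub ((dvd_neg).2 h1) (dvd_mul_right _ _)
  have g3 : ∀ (x1 : ZMod q1) (x2 : ZMod q2) (x3 x3' : ZMod q3), ((c1 * (x1.val : ℤ) +
      c2 * (x2.val : ℤ) + c3 * (x3.val : ℤ) : ℤ) : ZMod K) = d → ((c1 * (x1.val : ℤ) +
      c2 * (x2.val : ℤ) + c3 * (x3'.val : ℤ) : ℤ) : ZMod K) = d → x3 = x3' := by
    intro x1 x2 x3 x3' h h'
    apply Pool.Agent.Y445.GJ.val_inj
    refine Pool.Agent.Y445.GJ.canc hc3 (K := K) (by rw [hK, hq3]) ?_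
    have h1 := dvd_sub (hdv x1 x2 x3' h') (hdv x1 x2 x3 h)
    have e : c3 * ((x3.val : ℤ) - x3'.val) =
        D - (c1 * (x1.val : ℤ) + c2 * (x2.val : ℤ) + c3 * (x3'.val : ℤ)) -
        (D - (c1 * (x1.val : ℤ) + c2 * (x2.val : ℤ) + c3 * (x3.val : ℤ))) := by ring
    rw [e]
    exact h1
  have g4 : ∀ (x1 : ZMod q1) (x2 x2' : ZMod q2) (x3 : ZMod q3), ((c1 * (x1.val : ℤ) +
      c2 * (x2.val : ℤ) + c3 * (x3.val : ℤ) : ℤ) : ZMod K) = d → ((c1 * (x1.val : ℤ) +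
      c2 * (x2'.val : ℤ) + c3 * (x3.val : ℤ) : ℤ) : ZMod K) = d → x2 = x2' := by
    intro x1 x2 x2' x3 h h'
    apply Pool.Agent.Y445.GJ.val_inj
    refine Pool.Agent.Y445.GJ.canc hc2 (K := K) (by rw [hK, hq2]; ring) ?_
    have h1 := dvd_sub (hdv x1 x2' x3 h') (hdv x1 x2 x3 h)
    have e : c2 * ((x2.val : ℤ) - x2'.val) =
        D - (c1 * (x1.val : ℤ) + c2 * (x2'.val : ℤ) + c3 * (x3.val : ℤ)) -
        (D - (c1 * (x1.val : ℤ) + c2 * (x2.val : ℤ) + c3 * (x3.val : ℤ))) := by ring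
    rw [e]
    exact h1
  have key := Pool.Agent.Y445.GJ.lw (X := ZMod q1) (Y := ZMod q2) (Z := ZMod q3)
    (fun (x1 : ZMod q1) (x2 : ZMod q2) (x3 : ZMod q3) =>
      ((c1 * (x1.val : ℤ) + c2 * (x2.val : ℤ) + c3 * (x3.val : ℤ) : ℤ) : ZMod K) = d)
    (fun (x1 : ZMod q1) (x2 : ZMod q2) => c3 ∣ c1 * (x1.val : ℤ) - (D - c2 * (x2.val : ℤ)))
    (fun (x1 : ZMod q1) (x3 : ZMod q3) => c2 ∣ c1 * (x1.val : ℤ) - (D - c3 * (x3.val : ℤ))) (k * gg c1 c2 c3)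
    g1 g2 g3 g4 (fun x2 x3 E hE => cntG hq1 hc1 hc2 hc3 _ _ E hE) inst A B C
  exact key

theorem tNormG : TNormG := by
  intro c1 c2 c3 k _ _ _ d A B C
  have key := coreG c1 c2 c3 k (k * c2.natAbs * c3.natAbs)
    (k * c1.natAbs * c3.natAbs) (k * c1.natAbs * c2.natAbs) (k * c1.natAbs * c2.natAbs * c3.natAbs)
    rfl rfl rfl rfl d A B C (fun x1 x2 x3 => ZMod.decidableEq _ _ _)
  unfold T3
  exact key

end Pool.Agent.H7.BG
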